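import Pool.Agent.H146Z.PvEmb
import Pool.Agent.Helper292.ForceCH

set_option autoImplicit false

open scoped BoundedContinuousFunction

namespace Pool.Agent.Results.MP_4890b1_an.NotATheorem

open Pool.Agent.Helper292.ForceCH

/-- (1) The continuum hypothesis can be forced, with `ω₁` preserved. (2) Under the continuum
hypothesis `C (ℕ*) = ℓ∞ / c₀` contains an isometric copy `Y` of itself such that no subspace
`Z ⊆ Y` isomorphic to `C (ℕ*)` is complemented in `C (ℕ*)`. -/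
theorem result :
    (∃ (P : Type) (_ : Preorder P), Nonempty P ∧ ∀ p : P,
      p ∈ OmegaOnePreserved P ∧ p ∈ CHHolds P) ∧
    (Cardinal.aleph 1 = Cardinal.continuum.{0} →
      ∀ (X : Set (StoneCech ℕ)), X = (Set.range (stoneCechUnit : ℕ → StoneCech ℕ))ᶜ →
      ∃ Y : Submodule ℝ (X →ᵇ ℝ), IsClosed (Y : Set (X →ᵇ ℝ)) ∧
        Nonempty ((X →ᵇ ℝ) ≃ₗᵢ[ℝ] Y) ∧
        ∀ Z : Submodule ℝ (X →ᵇ ℝ), Z ≤ Y → Nonempty ((X →ᵇ ℝ) ≃L[ℝ] Z) →
          ¬ ∃ Q : (X →ᵇ ℝ) →L[ℝ] (X →ᵇ ℝ), (∀ f, Q (Q f) = Q f) ∧ Set.range Q = Z) := by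
  refine ⟨?_, fun hCH X hX => ?_⟩
  · obtain ⟨P, i, h1, h2⟩ := exists_forcing
    exact ⟨P, i, h1, fun p => ⟨(h2 p).1, (h2 p).2.2⟩⟩
  subst hX
  exact Pool.Agent.H146Z.Pv.main hCH

end Pool.Agent.Results.MP_4890b1_an.NotATheorem
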